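import Mathlib
import Pool.Agent.Lib.P166ae0.LitDefs
import Pool.Agent.Lib.P166ae0.LitBridge

/-!
# The Premet–Skryabin conjecture

For every finite-dimensional restricted Lie algebra `L` over an algebraically closed field of
characteristic `p > 0` some reduced enveloping algebra `u(L, χ)` is semisimple if and only if some
linear form has a toral centralizer, and in this case the centralizers of all linear forms in a
nonempty Zariski open set are toral.
-/

set_option autoImplicit false

namespace Pool.Agent.Results.MP_166ae0_al.PremetSkryabin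

open Pool.Agent.P166ae0

theorem result (p : ℕ) [Fact p.Prime] (K : Type) [Field K] [IsAlgClosed K] [CharP K p]
    (L : Type) [LieRing L] [LieAlgebra K L] [FiniteDimensional K L] (pmap : L → L)
    (hL : IsRestricted p K L pmap) :
    List.TFAE [
      ∃ χ : Module.Dual K L, IsSemisimpleRing (RedEnv p pmap χ),
      ∃ ξ : Module.Dual K L, IsToral pmap (cent ξ),
      ∀ (σ : Type) (b : Module.Basis σ K L), ∃ F : MvPolynomial σ K, F ≠ 0 ∧
        ∀ ξ : Module.Dual K L, MvPolynomial.eval (fun i => ξ (b i)) F ≠ 0 →
          IsToral pmap (cent ξ)] := by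
  obtain ⟨m, ι, hinj, hlie, hp⟩ := exists_rep p K L pmap hL
  let E : REmb K L p m := { ι := ι, inj := hinj, lie := hlie, pmap := pmap, hp := hp }
  obtain ⟨h1, h2⟩ := main_emb E
  tfae_have 1 ↔ 2 := h1
  tfae_have 1 → 3 := h2
  tfae_have 3 → 2 := by
    intro h
    obtain ⟨F, hF, h3⟩ := h _ (Module.finBasis K L)
    have hinf : Infinite K := IsAlgClosed.instInfinite
    obtain ⟨pt, hpt⟩ : ∃ pt, MvPolynomial.eval pt F ≠ 0 := by
      by_contra hcon
      push Not at hcon
      apply hF
      apply MvPolynomial.funext
      intro x
      rw [hcon x, map_zero]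
    refine ⟨(Module.finBasis K L).constr K pt, h3 _ ?_⟩
    have : (fun i => ((Module.finBasis K L).constr K pt : L →ₗ[K] K) ((Module.finBasis K L) i)) =
        pt := by
      funext i
      exact (Module.finBasis K L).constr_basis K pt i
    rw [this]
    exact hpt
  tfae_finish

end Pool.Agent.Results.MP_166ae0_al.PremetSkryabin
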